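import Pool.Agent.WIR.StmtsE

/-!
# Squad WIR, row WE2 (helper80)
-/

set_option autoImplicit false

namespace Pool.Agent.WIR.H80

open scoped BigOperators

theorem fo_insert (N M : ℕ) (O : Finset ℕ) (hO : O ⊆ Finset.Icc 1 M) (hN : N ≤ O.card) :
    FO N (insert (M + 1) O) = FO N O := by
  have hlt : ∀ p ∈ O, p < M + 1 := fun p hp => by
    have := Finset.mem_Icc.1 (hO hp)
    omega
  have hnot : M + 1 ∉ O := fun h => absurd (hlt _ h) (lt_irrefl _)
  unfold FO
  rw [Finset.sum_insert hnot]
  have h1 : rk (insert (M + 1) O) (M + 1) = O.card := by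
    unfold rk
    congr 1
    ext q
    simp only [Finset.mem_filter, Finset.mem_insert]
    constructor
    · rintro ⟨h1 | h1, h2⟩
      · omega
      · exact h1
    · intro h
      exact ⟨Or.inr h, hlt q h⟩
  have h2 : (3 : ZMod (3 ^ N)) ^ O.card = 0 := by
    have h3 : ((3 ^ N : ℕ) : ZMod (3 ^ N)) = 0 := ZMod.natCast_self _
    have h4 : (3 : ZMod (3 ^ N)) ^ N = 0 := by
      rw [← h3]
      push_cast
      rfl
    rw [← Nat.sub_add_cancel hN, pow_add, h4, mul_zero]
  rw [h1, h2, zero_mul, zero_add]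
  refine Finset.sum_congr rfl fun p hp => ?_
  have h5 : rk (insert (M + 1) O) p = rk O p := by
    unfold rk
    congr 1
    ext q
    simp only [Finset.mem_filter, Finset.mem_insert]
    constructor
    · rintro ⟨h1 | h1, h2⟩
      · have := hlt p hp
        omega
      · exact ⟨h1, h2⟩
    · rintro ⟨h1, h2⟩
      exact ⟨Or.inr h1, h2⟩
  rw [h5]

open Classical in
theorem cnt_step (N M : ℕ) (S : Set ℕ) (hS1 : ∀ n ∈ S, N ≤ n) (hS2 : ∀ n ∈ S, n + 1 ∈ S)
    (z : ZMod (3 ^ N)) : 2 * cnt M S N z ≤ cnt (M + 1) S N z := by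
  unfold cnt
  set A := (Finset.Icc 1 M).powerset.filter (fun O => O.card ∈ S ∧ FO N O = z) with hA
  have hlt : ∀ O ∈ A, M + 1 ∉ O := by
    intro O hO h
    have h1 := Finset.mem_powerset.1 (Finset.mem_filter.1 hO).1 h
    have := Finset.mem_Icc.1 h1
    omega
  have hdisj : Disjoint A (A.image (insert (M + 1))) := by
    rw [Finset.disjoint_left]
    intro O hO hO'
    obtain ⟨O2, -, rfl⟩ := Finset.mem_image.1 hO'
    exact hlt _ hO (Finset.mem_insert_self _ _)
  have hcard : (A.image (insert (M + 1))).card = A.card := by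
    refine Finset.card_image_of_injOn ?_
    intro O hO O2 hO2 he
    have he' : insert (M + 1) O = insert (M + 1) O2 := he
    rw [← Finset.erase_insert (hlt O hO), he', Finset.erase_insert (hlt O2 hO2)]
  have hsub : A ∪ A.image (insert (M + 1)) ⊆
      (Finset.Icc 1 (M + 1)).powerset.filter (fun O => O.card ∈ S ∧ FO N O = z) := by
    intro O hO
    rcases Finset.mem_union.1 hO with h | h
    · obtain ⟨h1, h2⟩ := Finset.mem_filter.1 h
      refine Finset.mem_filter.2 ⟨?_, h2⟩
      refine Finset.mem_powerset.2 ((Finset.mem_powerset.1 h1).trans ?_)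
      exact Finset.Icc_subset_Icc_right (by omega)
    · obtain ⟨O2, hO2, rfl⟩ := Finset.mem_image.1 h
      obtain ⟨h1, h2, h3⟩ := Finset.mem_filter.1 hO2
      have h1' := Finset.mem_powerset.1 h1
      refine Finset.mem_filter.2 ⟨?_, ?_, ?_⟩
      · refine Finset.mem_powerset.2 (Finset.insert_subset ?_ (h1'.trans ?_))
        · exact Finset.mem_Icc.2 ⟨by omega, le_refl _⟩
        · exact Finset.Icc_subset_Icc_right (by omega)
      · rw [Finset.card_insert_of_notMem (hlt O2 hO2)]
        exact hS2 _ h2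
      · rw [fo_insert N M O2 h1' (hS1 _ h2), h3]
  have := Finset.card_le_card hsub
  rw [Finset.card_union_of_disjoint hdisj, hcard] at this
  omega

/-- Row WE2. -/
theorem we2 : We2Stmt := by
  intro N M M' z hM
  obtain ⟨n, rfl⟩ := Nat.exists_eq_add_of_le hM
  rw [Nat.add_sub_cancel_left]
  clear hM
  induction n with
  | zero => simp
  | succ n ih =>
    have h1 := cnt_step N (M + n) (Set.Ici N) (fun n hn => hn)
      (fun n hn => Set.mem_Ici.2 (le_trans (Set.mem_Ici.1 hn) (Nat.le_succ n))) z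
    calc 2 ^ (n + 1) * cnt M (Set.Ici N) N z = 2 * (2 ^ n * cnt M (Set.Ici N) N z) := by ring
      _ ≤ 2 * cnt (M + n) (Set.Ici N) N z := Nat.mul_le_mul_left 2 ih
      _ ≤ cnt (M + n + 1) (Set.Ici N) N z := h1

end Pool.Agent.WIR.H80
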