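import Pool.Agent.WIR.StmtsB

/-!
# Squad WIR, row TRI (helper80)
-/

set_option autoImplicit false

namespace Pool.Agent.WIR.H80

open scoped BigOperators

theorem kh_nonneg (B : ℕ) (f : ℕ → ℝ) (l : ℕ) (hf : ∀ x, 0 ≤ f x) : 0 ≤ Kh B f l := by
  unfold Kh
  refine Finset.sum_nonneg fun x _ => ?_
  have h1 : (0 : ℝ) ≤ ((x - l - 1 : ℕ) : ℝ) := Nat.cast_nonneg _
  have h2 : (0 : ℝ) ≤ (1 / 2 : ℝ) ^ (x - l) := by positivity
  exact mul_nonneg (mul_nonneg h1 h2) (hf x)

theorem cn_nonneg (B : ℕ) (β : ℕ → ℕ → ℕ → Prop) : ∀ P i j l, 0 ≤ Cn B β P i j l := by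
  intro P
  induction P with
  | zero => intro i j l; exact le_refl _
  | succ P ih =>
    intro i j l
    have h1 := kh_nonneg B (fun x => Cn B β P (i + 1) (j + 1) x) l (fun x => ih _ _ _)
    simp only [Cn]
    split_ifs
    · linarith
    · linarith

theorem cn_step (B : ℕ) (β : ℕ → ℕ → ℕ → Prop) (P i j l : ℕ) :
    Kh B (fun x => Cn B β P (i + 1) (j + 1) x) l ≤ Cn B β (P + 1) i j l := by
  simp only [Cn]
  split_ifs
  · linarith
  · linarith

theorem cn_bad (B : ℕ) (β : ℕ → ℕ → ℕ → Prop) (P i j l : ℕ) (h : β i j l) (hl : l ≤ B) :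
    1 ≤ Cn B β (P + 1) i j l := by
  have h1 := kh_nonneg B (fun x => Cn B β P (i + 1) (j + 1) x) l (fun x => cn_nonneg B β P _ _ _)
  simp only [Cn]
  rw [if_pos ⟨h, hl⟩]
  linarith

theorem cn_supp (hMon : MonStmt) (B : ℕ) (β : ℕ → ℕ → ℕ → Prop) (P i j l : ℕ) (hl : B < l) :
    Cn B β P i j l = 0 := by
  cases P with
  | zero => rfl
  | succ P =>
    simp only [Cn]
    rw [if_neg (fun h => absurd h.2 (not_le.2 hl)), (hMon.2.2.2 B _ l hl.le).2, add_zero]

theorem pr_mono (g : ℕ → ℕ) (hg : Monotone g) : ∀ R, Monotone (PR g R) := by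
  intro R
  induction R with
  | zero => intro i j _; exact le_refl _
  | succ R ih =>
    intro i j hij
    have h1 := hg hij
    have h2 : PR g R (i + g i + 2) ≤ PR g R (j + g j + 2) := ih (by omega)
    simp only [PR]
    omega

/-- Row TRI. -/
theorem tri (hMon : MonStmt) (hDvb : DvbStmt) (hWst : WstStmt) (hGwh : GwhStmt)
    (hTrs : TrsStmt) : TriStmt := by
  classical
  intro h b Q t B d g hsys hd0 hd1 hg R
  set β : ℕ → ℕ → ℕ → Prop := fun i j l => badE Q t (g i) j l with hβ
  obtain ⟨hD1, hD2, hD3, -⟩ := hDvb B d b hd0 hd1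
  have hρ0 : 0 ≤ 1 - d / 8 := by linarith
  induction R with
  | zero =>
    intro i P j l _
    have h1 := (hD1 P j l).2
    have h2 := cn_nonneg B β P i j l
    rw [pow_zero]
    linarith
  | succ R ih =>
    intro i P j l hP
    have hPR : PR g (R + 1) i = g i + 2 + PR g R (i + g i + 2) := rfl
    rw [hPR] at hP
    have hY : 0 ≤ (1 - d / 8) ^ R := pow_nonneg hρ0 R
    have hY1 : 0 ≤ (1 - d / 8) ^ (R + 1) := pow_nonneg hρ0 (R + 1)
    have hYs : (1 - d / 8) ^ (R + 1) = (1 - d / 8) * (1 - d / 8) ^ R := by rw [pow_succ]; ring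
    have hdY : 0 ≤ d * (1 - d / 8) ^ R := mul_nonneg hd0 hY
    have hC := cn_nonneg B β P i j l
    have hmonPR := pr_mono g hg R
    rcases lt_or_ge B l with hBl | hlB
    · rw [hD2 P j l hBl]
      linarith
    by_cases hbad : β i j l
    · obtain ⟨P', rfl⟩ : ∃ P', P = P' + 1 := ⟨P - 1, by omega⟩
      have h1 := cn_bad B β P' i j l hbad hlB
      have h2 := (hD1 (P' + 1) j l).2
      linarith
    by_cases hb : b (j + 1) (l + 3)
    · -- black point
      obtain ⟨q, hq, hT⟩ := hsys.cover _ _ hb
      have hq3 : l + 3 ≤ q.2 := hT.2.1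
      have hqg : q.2 ≤ l + g i := by
        by_contra hcon
        exact hbad ⟨q, hq, hT, by omega⟩
      obtain ⟨s, hs⟩ : ∃ s, q.2 = l + s := ⟨q.2 - l, by omega⟩
      have hsg : s ≤ g i := by omega
      set V : ℕ → ℕ → ℝ := fun k x => Dv B d b (P - k) (j + k) x
        - Cn B β (P - k) (i + k) (j + k) x with hV
      have hmain : V 0 l ≤ (1 - d / 4 / 2) * (1 - d / 8) ^ R := by
        refine hTrs B s V l ((1 - d / 8) ^ R) (d / 4) hY (by linarith) (by linarith) ?_ ?_ ?_ ?_ ?_
        · intro k x hx
          simp only [hV]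
          rw [hD2 _ _ _ hx, cn_supp hMon B β _ _ _ _ hx, sub_zero]
        · intro k x
          simp only [hV]
          have h1 := (hD1 (P - k) (j + k) x).2
          have h2 := cn_nonneg B β (P - k) (i + k) (j + k) x
          linarith
        · intro k x hk
          simp only [hV]
          obtain ⟨n, hn⟩ : ∃ n, P - k = n + 1 := ⟨P - k - 1, by omega⟩
          have hn' : P - (k + 1) = n := by omega
          rw [hn, hn']
          have h1 := hD3 n (j + k) x
          have h2 := cn_step B β n (i + k) (j + k) x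
          have h3 := (hMon.2.1 B (Dv B d b n (j + (k + 1)))
            (fun x => Cn B β n (i + (k + 1)) (j + (k + 1)) x) (-1) x).2
          have h4 : (fun x => Dv B d b n (j + (k + 1)) x + (-1) *
              Cn B β n (i + (k + 1)) (j + (k + 1)) x) =
              (fun x => Dv B d b n (j + (k + 1)) x - Cn B β n (i + (k + 1)) (j + (k + 1)) x) := by
            funext y; ring
          rw [h4] at h3
          rw [h3]
          have h5 : Kh B (Dv B d b n (j + (k + 1))) x = Kh B (Dv B d b n (j + k + 1)) x := rfl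
          have h6 : Kh B (fun x => Cn B β n (i + (k + 1)) (j + (k + 1)) x) x =
            Kh B (fun x => Cn B β n (i + k + 1) (j + k + 1) x) x := rfl
          rw [h5, h6]
          linarith
        · intro k o hk ho
          simp only [hV]
          have h1 := ih (i + (k + 1)) (P - (k + 1)) (j + (k + 1)) (l + s + o) (by
            have := hmonPR (show i + (k + 1) ≤ i + g i + 2 by omega)
            omega)
          linarith
        · intro k o hk ho hk2 ho9
          simp only [hV]
          obtain ⟨n, hn⟩ : ∃ n, P - (k + 1) = n + 1 := ⟨P - k - 2, by omega⟩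
          rw [hn]
          have hw : ¬ b (j + k + 2) (q.2 + o + 3) :=
            hGwh h b Q t hsys q j l k o hq hT (by rw [hs, Nat.add_sub_cancel_left]; exact hk2) ho ho9
          rw [hs] at hw
          have h1 := hWst B d b n (j + (k + 1)) (l + s + o) ((1 - d / 8) ^ R)
            (fun x => Cn B β n (i + (k + 1) + 1) (j + (k + 1) + 1) x) hd0 hd1 hY
            (fun x => cn_nonneg B β _ _ _ _) hw (by
              intro x' _
              exact ih (i + (k + 1) + 1) n (j + (k + 1) + 1) x' (by
                have := hmonPR (show i + (k + 1) + 1 ≤ i + g i + 2 by omega)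
                omega))
          have h2 := cn_step B β n (i + (k + 1)) (j + (k + 1)) (l + s + o)
          linarith
      have hV0 : V 0 l = Dv B d b P j l - Cn B β P i j l := rfl
      rw [hV0] at hmain
      have e : (1 - d / 4 / 2) * (1 - d / 8) ^ R = (1 - d / 8) ^ (R + 1) := by
        rw [hYs]; ring
      rw [e] at hmain
      linarith
    · -- white point
      obtain ⟨P', rfl⟩ : ∃ P', P = P' + 1 := ⟨P - 1, by omega⟩
      have h1 := hWst B d b P' j l ((1 - d / 8) ^ R)
        (fun x => Cn B β P' (i + 1) (j + 1) x) hd0 hd1 hY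
        (fun x => cn_nonneg B β _ _ _ _) hb (by
          intro x' _
          exact ih (i + 1) P' (j + 1) x' (by
            have := hmonPR (show i + 1 ≤ i + g i + 2 by omega)
            omega))
      have h2 := cn_step B β P' i j l
      rw [hYs]
      have h3 : (1 - d / 4) * (1 - d / 8) ^ R ≤ (1 - d / 8) * (1 - d / 8) ^ R := by
        have : (1 - d / 8) * (1 - d / 8) ^ R - (1 - d / 4) * (1 - d / 8) ^ R
            = d * (1 - d / 8) ^ R / 8 := by ring
        linarith
      linarith

end Pool.Agent.WIR.H80
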